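import Pool.Agent.V11273.PV.G17

/-!
# Axiom (SC) for the complex exponential function in bounded degree and height, at almost all algebraic points of all
analytic maps

Zilber's conjecture contains the axiom (SC) for `(ℂ, exp)`: if the complex numbers `w_1, …, w_n` are linearly independent over
`ℚ` then the exponential point `(w, exp w)` of `G_n = ℂ^n × (ℂ^*)^n` has transcendence degree at least `n` over `ℚ`.

Let `w_1, …, w_n` be analytic functions of `d ≥ 1` variables `z` on a nonempty connected open set `U` of `ℂ^d` such that no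
nontrivial combination of them with integral coefficients is constant. There is no other condition: they may be algebraic
functions, exponentials, logarithms, iterated exponentials, or have no special properties at all. In particular
`(w(z), exp(w(z)))` may be a family of exponential points (a branch of the solutions) of a family of systems of exponential
equations `(w, exp w) ∈ V_z`, where the varieties `V_z ⊆ G_n`, free and rotund, depend algebraically on the parameters `z`.

We prove (SC) in bounded degree and height for almost all algebraic values of `z`: one can choose `n` of the `2 n` functions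
`w_1, …, w_n, exp(w_1), …, exp(w_n)` such that at all points `z ∈ U` with coordinates of height at most `T` in a number field
of degree at most `ω T`, outside of a sparse set, the chosen `n` numbers satisfy no polynomial relation of degree at most `ω T`
and height at most `T ^ ω T`, not even with coefficients which are combinations of arbitrary fixed complex numbers `ξ_i`.
Here `ω T → ∞`. If `V_z` is irreducible of dimension `n` then this also gives the genericity required by the axiom (SEAC) (i),
in bounded degree and height: the solution `(w(z), exp(w(z)))` of the system over `K(ξ)` has `n = dim V_z` independent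
coordinates. The exceptional points lie on at most `T ^ (1 / ω T)` hypersurfaces of degree at most `T ^ (1 / ω T)`.
-/

set_option autoImplicit false

open Filter NumberField

namespace Pool.Agent.Results.MP_209724_lc.AllAnalyticMaps

/-- quotients of two integers of `K`, all conjugates of which are at most `T` -/
def HeightLe (K : Type) [Field K] [NumberField K] (T : ℝ) (x : K) : Prop :=
  ∃ a b : 𝓞 K, b ≠ 0 ∧ house (a : K) ≤ T ∧ house (b : K) ≤ T ∧ x = a / b

/-- `S` is covered by at most `m` hypersurfaces of degree at most `D` -/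
def CoveredBy {X : Type} (D m : ℕ) (S : Set (X → ℂ)) : Prop :=
  ∃ Φ : Finset (MvPolynomial X ℂ), Φ.card ≤ m ∧ (∀ P ∈ Φ, P ≠ 0 ∧ P.totalDegree ≤ D) ∧
    ∀ x ∈ S, ∃ P ∈ Φ, MvPolynomial.eval x P = 0

/-- the points of norm at most `k` at distance at least `1 / k` from the complement of `U` -/
def Inner {X : Type} [Fintype X] (U : Set (X → ℂ)) (k : ℕ) : Set (X → ℂ) :=
  {z | ‖z‖ ≤ k ∧ Metric.ball z (k : ℝ)⁻¹ ⊆ U}

/-- the partial degrees of `P` are at most `k`, and its coefficients are `∑ ξ i * c i`, `i < k`, where the `c i` are
integers of `K`, all conjugates of which are at most `T ^ k` -/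
def Small {σ : Type} (K : Type) [Field K] [NumberField K] (io : K →+* ℂ) (k : ℕ) (ξ : Fin k → ℂ) (T : ℝ)
    (P : MvPolynomial σ ℂ) : Prop :=
  (∀ y, P.degreeOf y ≤ k) ∧ ∀ m, ∃ c : Fin k → 𝓞 K, (∀ i (φ : K →+* ℂ), ‖φ (c i : K)‖ ≤ T ^ (k : ℝ)) ∧
    P.coeff m = ∑ i, ξ i * io (c i : K)

/-- the numbers `w_k(z)` (names `inl k`) and `exp(w_k(z))` (names `inr k`) -/
noncomputable def value {X : Type} {n : ℕ} (w : Fin n → (X → ℂ) → ℂ) (z : X → ℂ) : Fin n ⊕ Fin n → ℂ
  | Sum.inl k => w k z
  | Sum.inr k => Complex.exp (w k z)

/-- The exceptional points `z` over `K`: they are of height at most `T`, in the compact set `Inner U k`, and some nonzero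
small polynomial vanishes at the numbers `value w z a`, `a ∈ A`. -/
def Exceptional {X : Type} [Fintype X] {n : ℕ} (U : Set (X → ℂ)) (w : Fin n → (X → ℂ) → ℂ) (A : Finset (Fin n ⊕ Fin n))
    (K : Type) [Field K] [NumberField K] (io : K →+* ℂ) (k : ℕ) (ξ : Fin k → ℂ) (T : ℝ) : Set (X → K) :=
  {z | (∀ i, HeightLe K T (z i)) ∧ (fun i => io (z i)) ∈ Inner U k ∧
    ∃ P : MvPolynomial A ℂ, Small K io k ξ T P ∧
      MvPolynomial.eval (fun a => value w (fun i => io (z i)) a.1) P = 0 ∧ P ≠ 0}

/-- Let `U` be a nonempty connected open set of `ℂ^d`, `d ≥ 1`, and let `w_1, …, w_n`, `n ≥ 1`, be analytic functions on `U`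
such that no nontrivial combination of them with integral coefficients is constant. There is a set `A` of `n` of the `2 n`
functions `w_k`, `exp(w_k)`, and there is `ω → ∞`, such that for all large `T`, all number fields `K` of degree at most `ω T`,
embedded in `ℂ`, and all complex numbers `ξ i`, `i < ω T`, the set of the exceptional points lies on at most `T ^ (1 / ω T)`
hypersurfaces of degree at most `T ^ (1 / ω T)`, and has at most `T ^ (1 / ω T) * N ^ (d - 1)` elements, where `N` is the
number of the elements of `K` of height at most `T`. At all other points `z` with coordinates in `K` of height at most `T`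
(in `Inner U (ω T)`) the `n` numbers given by `A` satisfy no nonzero polynomial relation of partial degrees at most `ω T` with
coefficients `∑ ξ i * c i`, `c i` integers of `K` of size at most `T ^ ω T`. -/
theorem result {X : Type} [Fintype X] [DecidableEq X] [Nonempty X] {n : ℕ} (hn : 1 ≤ n) (U : Set (X → ℂ))
    (hU : IsOpen U) (hUc : IsPreconnected U) (hUn : U.Nonempty) (w : Fin n → (X → ℂ) → ℂ)
    (hw : ∀ k, AnalyticOnNhd ℂ (w k) U)
    (hli : ∀ m : Fin n → ℤ, m ≠ 0 → ∀ c : ℂ, ∃ z ∈ U, ∑ k, (m k : ℂ) * w k z ≠ c) :
    ∃ A : Finset (Fin n ⊕ Fin n), A.card = n ∧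
    ∃ (ω : ℝ → ℕ) (T₀ : ℝ), Tendsto ω atTop atTop ∧ Monotone ω ∧ ∀ T, T₀ ≤ T → 0 < ω T ∧
      ∀ (K : Type) [Field K] [NumberField K], Module.finrank ℚ K ≤ ω T → ∀ (io : K →+* ℂ) (ξ : Fin (ω T) → ℂ),
        CoveredBy ⌊T ^ ((ω T : ℝ)⁻¹)⌋₊ ⌊T ^ ((ω T : ℝ)⁻¹)⌋₊
          ((fun z i => io (z i)) '' Exceptional U w A K io (ω T) ξ T) ∧
        (Exceptional U w A K io (ω T) ξ T).Finite ∧
        ((Exceptional U w A K io (ω T) ξ T).ncard : ℝ) ≤
          T ^ ((ω T : ℝ)⁻¹) * ({x : K | HeightLe K T x}.ncard : ℝ) ^ (Fintype.card X - 1) := by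
  have hv : value w = fun z a => Pool.Agent.V11273.PV.se w a z := by
    funext z a
    rcases a with k | k <;> rfl
  obtain ⟨A, hA, h⟩ := Pool.Agent.V11273.PV.main_exp hUc hU hUn hw (by
    intro m c hc
    by_contra hne
    obtain ⟨z, hz, hzn⟩ := hli m hne c
    exact hzn (hc z hz)) hn
  refine ⟨A, hA, ?_⟩
  unfold Exceptional
  rw [hv]
  exact h

end Pool.Agent.Results.MP_209724_lc.AllAnalyticMaps
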