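import Pool.Agent.Helper264.NT.NearPV2
import Pool.Agent.V11273.PV.G17

/-!
# Axiom (SC) for the complex exponential function in bounded degree and height, at ALL algebraic points near almost every
point, for all analytic maps

Zilber's conjecture contains the axiom (SC) for `(ℂ, exp)`: if the complex numbers `w_1, …, w_n` are linearly independent over
`ℚ` then the exponential point `(w, exp w)` of `G_n = ℂ^n × (ℂ^*)^n` has transcendence degree at least `n` over `ℚ`.

Let `w_1, …, w_n` be analytic functions of `d ≥ 1` variables `z` on a nonempty connected open set `U` of `ℂ^d` such that no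
nontrivial combination of them with integral coefficients is constant; for instance `(w(z), exp(w(z)))` may be a branch of the
solutions of systems of exponential equations which depend algebraically on the parameters `z`. One can choose `n` of the
`2 n` functions `w_1, …, w_n, exp(w_1), …, exp(w_n)` with the following property. There is a set `E` in `ℂ^d` of Hausdorff
dimension at most `2 d - 2` such that near every point `z` of `U` outside of `E` there are no exceptional points: for all
`δ > 0` (arbitrarily small), all number fields `K` and all `k`, for large `T`, at ALL points `s` with coordinates in `K` of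
height at most `T` at distance at most `T ^ (-δ)` from `z` the chosen `n` numbers satisfy no nonzero polynomial relation of
partial degrees at most `k` with coefficients `∑ ξ i * c i`, `i < k`, `c i` integers of `K` of size at most `T ^ k`, `ξ i`
any given complex numbers. For real points `z` the same holds outside of a set in `ℝ^d` of dimension at most `d - 1`.
-/

set_option autoImplicit false

open Filter NumberField
open scoped ENNReal

namespace Pool.Agent.Results.MP_209724_lc.NearEveryPoint

/-- quotients of two integers of `K`, all conjugates of which are at most `T` -/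
def HeightLe (K : Type) [Field K] [NumberField K] (T : ℝ) (x : K) : Prop :=
  ∃ a b : 𝓞 K, b ≠ 0 ∧ house (a : K) ≤ T ∧ house (b : K) ≤ T ∧ x = a / b

/-- for a number field `K` embedded into `ℂ` by `io`: the partial degrees of `P` are at most `k`, and its coefficients are
`∑ ξ i * c i`, `i < k`, where the `c i` are integers of `K`, all conjugates of which are at most `T ^ k` -/
def Small {σ : Type} (K : Type) [Field K] [NumberField K] (io : K →+* ℂ) (k : ℕ) (ξ : ℕ → ℂ) (T : ℝ)
    (P : MvPolynomial σ ℂ) : Prop :=
  (∀ y, P.degreeOf y ≤ k) ∧ ∀ m, ∃ c : Fin k → 𝓞 K, (∀ i (φ : K →+* ℂ), ‖φ (c i : K)‖ ≤ T ^ (k : ℝ)) ∧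
    P.coeff m = ∑ i : Fin k, ξ i * io (c i : K)

/-- At all points `s` with coordinates in the number field `K` (embedded into `ℂ` by `io`) of height at most `T` and with
`|s i - z i| ≤ T ^ (-w)` for all `i`, no nonzero small polynomial vanishes at the numbers `v a s`. -/
def NoRelationNear {X S : Type} (v : S → (X → ℂ) → ℂ) (ξ : ℕ → ℂ) (z : X → ℂ) (w : ℝ) (K : Type) [Field K]
    [NumberField K] (io : K →+* ℂ) (k : ℕ) (T : ℝ) : Prop :=
  ∀ s : X → K, (∀ i, HeightLe K T (s i)) → (∀ i, ‖io (s i) - z i‖ ≤ T ^ (-w)) →
    ∀ P : MvPolynomial S ℂ, Small K io k ξ T P →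
      MvPolynomial.eval (fun a => v a fun i => io (s i)) P = 0 → P = 0

/-- The numbers `v a s` are independent in bounded degree and height at ALL algebraic points `s` near almost every point of
`U`, `d` being the number of coordinates:
(1) there is a set `E` in `ℂ ^ d` of Hausdorff dimension at most `2 (d - 1)` such that for all `z ∈ U` outside of `E`, all
`w > 0`, all number fields `K ⊂ ℂ` and all `k`, `NoRelationNear v ξ z w K k T` holds for all large `T`;
(2) there is a set `E` in `ℝ ^ d` of dimension at most `d - 1` such that the same is true for all real `z ∈ U` outside of `E`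
and all number fields `K ⊂ ℝ`. -/
def IndependentNearAlmostAll {X S : Type} [Fintype X] (U : Set (X → ℂ)) (v : S → (X → ℂ) → ℂ) (ξ : ℕ → ℂ) : Prop :=
  (∃ E : Set (X → ℂ), dimH E ≤ ((2 * (Fintype.card X - 1) : ℕ) : ℝ≥0∞) ∧ ∀ z ∈ U, z ∉ E → ∀ w : ℝ, 0 < w →
    ∀ (K : IntermediateField ℚ ℂ) [NumberField K] (k : ℕ), ∀ᶠ T : ℝ in atTop,
      NoRelationNear v ξ z w K (algebraMap K ℂ) k T) ∧
  ∃ E : Set (X → ℝ), dimH E ≤ ((Fintype.card X - 1 : ℕ) : ℝ≥0∞) ∧
    ∀ z : X → ℝ, (fun i => (z i : ℂ)) ∈ U → z ∉ E → ∀ w : ℝ, 0 < w →
    ∀ (K : IntermediateField ℚ ℝ) [NumberField K] (k : ℕ), ∀ᶠ T : ℝ in atTop,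
      NoRelationNear v ξ (fun i => (z i : ℂ)) w K (Complex.ofRealHom.comp (algebraMap K ℝ)) k T

/-- the numbers `w_k(z)` (names `inl k`) and `exp(w_k(z))` (names `inr k`) -/
noncomputable def value {X : Type} {n : ℕ} (w : Fin n → (X → ℂ) → ℂ) : Fin n ⊕ Fin n → (X → ℂ) → ℂ
  | Sum.inl k => w k
  | Sum.inr k => fun z => Complex.exp (w k z)

/-- Let `U` be a nonempty connected open set of `ℂ^d`, `d ≥ 1`, and let `w_1, …, w_n`, `n ≥ 1`, be analytic functions on `U`
such that no nontrivial combination of them with integral coefficients is constant. There is a set `A` of `n` of the `2 n`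
functions `w_k`, `exp(w_k)` such that for all complex numbers `ξ i` the `n` numbers given by `A` are independent in bounded
degree and height at ALL algebraic points near every point outside of a set of dimension at most `2 (d - 1)` (complex points),
`d - 1` (real points): see `IndependentNearAlmostAll`. -/
theorem result {X : Type} [Fintype X] [DecidableEq X] [Nonempty X] {n : ℕ} (hn : 1 ≤ n) (U : Set (X → ℂ))
    (hU : IsOpen U) (hUc : IsPreconnected U) (hUn : U.Nonempty) (w : Fin n → (X → ℂ) → ℂ)
    (hw : ∀ k, AnalyticOnNhd ℂ (w k) U)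
    (hli : ∀ m : Fin n → ℤ, m ≠ 0 → ∀ c : ℂ, ∃ z ∈ U, ∑ k, (m k : ℂ) * w k z ≠ c) :
    ∃ A : Finset (Fin n ⊕ Fin n), A.card = n ∧ ∀ ξ : ℕ → ℂ,
      IndependentNearAlmostAll U (fun (a : A) => value w a.1) ξ := by
  have hv : value w = Pool.Agent.V11273.PV.se w := by
    funext a
    rcases a with k | k <;> rfl
  obtain ⟨A, hA, hAi⟩ := Pool.Agent.V11273.PV.choose_exp hUc hU hUn hw (by
    intro m c hc
    by_contra hne
    obtain ⟨z, hz, hzn⟩ := hli m hne c
    exact hzn (hc z hz)) hn
  refine ⟨A, hA, fun ξ => ?_⟩
  rw [hv]
  refine Pool.Agent.Helper264.NT.near_two hUc hU hUn (fun a => ?_) hAi ξ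
  rcases a with ⟨k | k, ha⟩
  · exact hw k
  · exact fun z hz => (hw k z hz).cexp

end Pool.Agent.Results.MP_209724_lc.NearEveryPoint
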